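import Pool.Agent.V8H14.MHA.Base
import Pool.Agent.R142.Arr

/-!
# The forms and the intersection lattice of an arrangement (definitions)
-/

set_option autoImplicit false

namespace Pool.Agent.V8H14.MHA

open Pool.Agent.R142

/-- A linear form with kernel `H`. -/
theorem exists_form {d : ℕ} (A : Finset (Submodule ℝ (Fin d → ℝ))) (hA : Arr.IsArrangement A) (H : A) :
    ∃ g : (Fin d → ℝ) →ₗ[ℝ] ℝ, LinearMap.ker g = H.1 := by
  have hd := hA H.1 H.2
  have hlt : H.1 < ⊤ := by
    rw [lt_top_iff_ne_top]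
    intro h
    rw [h, finrank_top, Module.finrank_fin_fun] at hd
    omega
  obtain ⟨g, hg, hle⟩ := Submodule.exists_le_ker_of_lt_top H.1 hlt
  refine ⟨g, (Submodule.eq_of_le_of_finrank_eq hle ?_).symm⟩
  have h2 := Module.Dual.finrank_ker_add_one_of_ne_zero (f := (g : Module.Dual ℝ (Fin d → ℝ))) hg
  rw [Module.finrank_fin_fun] at h2
  omega

open Classical in
/-- The forms of an arrangement (indexed by its hyperplanes). -/
noncomputable def formsOf {d : ℕ} (A : Finset (Submodule ℝ (Fin d → ℝ))) (H : A) :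
    (Fin d → ℝ) →ₗ[ℝ] ℝ :=
  if h : ∃ g : (Fin d → ℝ) →ₗ[ℝ] ℝ, LinearMap.ker g = H.1 then h.choose else 0

/-- The intersection lattice: the intersections of the subsets of `A`, ordered by reverse
inclusion. -/
abbrev Lat {d : ℕ} (A : Finset (Submodule ℝ (Fin d → ℝ))) : Type :=
  {X : Submodule ℝ (Fin d → ℝ) // ∃ B ⊆ A, X = ⨅ H ∈ B, H}ᵒᵈ

theorem ker_formsOf {d : ℕ} {A : Finset (Submodule ℝ (Fin d → ℝ))} (hA : Arr.IsArrangement A)
    (H : A) : LinearMap.ker (formsOf A H) = H.1 := by
  rw [formsOf, dif_pos (exists_form A hA H)]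
  exact (exists_form A hA H).choose_spec

theorem formsOf_ne_zero {d : ℕ} {A : Finset (Submodule ℝ (Fin d → ℝ))} (hA : Arr.IsArrangement A)
    (H : A) : formsOf A H ≠ 0 := by
  intro h
  have h1 := ker_formsOf hA H
  have h2 := hA H.1 H.2
  rw [h, LinearMap.ker_zero] at h1
  rw [← h1, finrank_top, Module.finrank_fin_fun] at h2
  omega

theorem formsOf_inj {d : ℕ} {A : Finset (Submodule ℝ (Fin d → ℝ))} (hA : Arr.IsArrangement A) :
    Function.Injective fun H : A => LinearMap.ker (formsOf A H) := by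
  intro H H' h
  have h' : LinearMap.ker (formsOf A H) = LinearMap.ker (formsOf A H') := h
  rw [ker_formsOf hA, ker_formsOf hA] at h'
  exact Subtype.ext h'

end Pool.Agent.V8H14.MHA
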