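import Pool.Agent.V8H61.MC.Count
import Pool.Agent.V8H61.MC.Forms

/-!
# The index set of the magnitude homology depends only on the intersection lattice
-/

set_option autoImplicit false

namespace Pool.Agent.V8H61.MC

open Pool.Agent.V8H14.MHA Pool.Agent.R142

/-- The flats of the forms are the intersections of the hyperplanes. -/
theorem flat_iff {d : ℕ} {A : Finset (Submodule ℝ (Fin d → ℝ))} (hA : Arr.IsArrangement A)
    (X : Submodule ℝ (Fin d → ℝ)) :
    (∃ J : Set A, X = ZJ (formsOf A) J) ↔ ∃ B ⊆ A, X = ⨅ H ∈ B, H := by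
  classical
  constructor
  · rintro ⟨J, rfl⟩
    refine ⟨A.filter fun H => ∃ h : H ∈ A, (⟨H, h⟩ : A) ∈ J, Finset.filter_subset _ _, ?_⟩
    ext v
    rw [mem_ZJ]
    simp only [Submodule.mem_iInf, Finset.mem_filter]
    constructor
    · rintro h H ⟨_, h1, h2⟩
      have := h _ h2
      rw [← LinearMap.mem_ker, ker_formsOf hA] at this
      exact this
    · intro h H hH
      rw [← LinearMap.mem_ker, ker_formsOf hA]
      exact h H.1 ⟨H.2, H.2, hH⟩
  · rintro ⟨B, hB, rfl⟩
    refine ⟨{H | H.1 ∈ B}, ?_⟩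
    ext v
    rw [mem_ZJ]
    simp only [Submodule.mem_iInf]
    constructor
    · intro h H hH
      rw [← LinearMap.mem_ker, ker_formsOf hA]
      exact h H.1 hH
    · intro h H hH
      have := h ⟨H, hB hH⟩ hH
      rw [← LinearMap.mem_ker, ker_formsOf hA] at this
      exact this

/-- The flats as an order isomorphic copy. -/
noncomputable def flIso {d : ℕ} {A : Finset (Submodule ℝ (Fin d → ℝ))} (hA : Arr.IsArrangement A) :
    Fl (formsOf A) ≃o {X : Submodule ℝ (Fin d → ℝ) // ∃ B ⊆ A, X = ⨅ H ∈ B, H} where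
  toEquiv := Equiv.subtypeEquivRight (flat_iff hA)
  map_rel_iff' := Iff.rfl

/-- PART C -/
theorem count_eq {d d' : ℕ} (A : Finset (Submodule ℝ (Fin d → ℝ)))
    (A' : Finset (Submodule ℝ (Fin d' → ℝ))) (hA : Arr.IsArrangement A) (hA' : Arr.IsArrangement A')
    (e : Lat A ≃o Lat A') (k l : ℕ) :
    Nat.card (Idx (formsOf A) k l) = Nat.card (Idx (formsOf A') k l) := by
  refine count_general (formsOf A) (formsOf A') (formsOf_ne_zero hA) (formsOf_inj hA)
    (formsOf_ne_zero hA') (formsOf_inj hA') ?_ k l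
  exact (flIso hA).trans (((OrderIso.dualDual _).trans (e.dual.trans (OrderIso.dualDual _).symm)).trans
    (flIso hA').symm)

end Pool.Agent.V8H61.MC
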