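import Pool.Agent.V8H61.MC.Euler

/-!
# Flats of an arrangement: codimensions and face counts depend only on the lattice
-/

set_option autoImplicit false

namespace Pool.Agent.V8H61.MC

open Pool.Agent.V8H14.MHA

section one

variable {E : Type} [AddCommGroup E] [Module ℝ E] {ι : Type} (f : ι → (E →ₗ[ℝ] ℝ))

/-- The flats, ordered by inclusion. -/
abbrev Fl : Type := {X : Submodule ℝ E // ∃ J : Set ι, X = ZJ f J}

/-- The flat spanned by a face. -/
def fl (σ : SV ι) : Fl f := ⟨Zs f σ, {i | σ i = 0}, rfl⟩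

instance [Finite ι] : Finite (Fl f) := by
  let g : Set ι → Fl f := fun J => ⟨ZJ f J, J, rfl⟩
  have : Function.Surjective g := fun X => by
    obtain ⟨J, hJ⟩ := X.2
    exact ⟨J, Subtype.ext hJ.symm⟩
  exact Finite.of_surjective g this

theorem ZJ_empty : ZJ f ∅ = ⊤ := by simp [ZJ]

instance : OrderTop (Fl f) where
  top := ⟨⊤, ∅, (ZJ_empty f).symm⟩
  le_top X := (le_top : X.1 ≤ ⊤)

theorem top_val : (⊤ : Fl f).1 = ⊤ := rfl

theorem flat_eq (Z : Fl f) : ZJ f {i | Z.1 ≤ LinearMap.ker (f i)} = Z.1 := by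
  obtain ⟨Z, J, rfl⟩ := Z
  ext v
  rw [mem_ZJ, mem_ZJ]
  constructor
  · intro h i hi
    refine h i ?_
    intro w hw
    exact (mem_ZJ f).1 hw i hi
  · intro h i hi
    exact hi ((mem_ZJ f).2 h)

theorem zero_iff {G : SV ι} (hG : G ∈ Faces f) (i : ι) : G i = 0 ↔ (fl f G).1 ≤ LinearMap.ker (f i) := by
  constructor
  · intro h v hv
    exact (mem_Zs f).1 hv i h
  · intro h
    obtain ⟨v, rfl⟩ := hG
    have hv : v ∈ Zs f (sgv f v) := (mem_Zs f).2 fun j hj => sign_eq_zero_iff.1 hj
    have h1 : f i v = 0 := h hv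
    simp only [sgv, h1, sign_zero]

theorem fl_mono {F G : SV ι} (h : F ≤ G) : fl f F ≤ fl f G := by
  intro v hv
  have hv' : v ∈ Zs f F := hv
  show v ∈ Zs f G
  rw [mem_Zs] at hv' ⊢
  intro i hi
  refine hv' i ?_
  rcases h i with h1 | h1
  · exact h1
  · rw [h1, hi]

theorem le_of_fl_le {G G' σ : SV ι} (hG : G ∈ Faces f) (hG' : G' ∈ Faces f) (h : G ≤ σ) (h' : G' ≤ σ)
    (hle : fl f G ≤ fl f G') : G ≤ G' := by
  intro i
  by_cases h0 : G i = 0
  · exact Or.inl h0
  · right
    have h1 : G' i ≠ 0 := by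
      intro h1
      apply h0
      rw [zero_iff f hG]
      exact le_trans hle ((zero_iff f hG' i).1 h1)
    rw [(h i).resolve_left h0, (h' i).resolve_left h1]

/-- The codimension. -/
noncomputable def cd (Z : Fl f) : ℕ := Module.finrank ℝ E - Module.finrank ℝ Z.1

/-- The number of hyperplanes containing the flat. -/
noncomputable def at' (Z : Fl f) : ℕ := Nat.card {i : ι // Z.1 ≤ LinearMap.ker (f i)}

/-- The faces above `F` spanning the flat `Z`. -/
abbrev GG (F : SV ι) (Z : Fl f) : Type := {G : SV ι // G ∈ Faces f ∧ F ≤ G ∧ fl f G = Z}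

instance [Finite ι] (F : SV ι) (Z : Fl f) : Finite (GG f F Z) := Subtype.finite

theorem ro_above [Finite ι] (F : SV ι) (Z : Fl f) : RO Z.1 {v | v ∈ Z.1 ∧ F ≤ sgv f v} := by
  classical
  have := Fintype.ofFinite ι
  refine ⟨fun v hv => hv.1, ?_, ?_⟩
  · intro x hx y hy a b ha hb hab
    refine ⟨Z.1.add_mem (Z.1.smul_mem _ hx.1) (Z.1.smul_mem _ hy.1), fun i => ?_⟩
    by_cases h0 : F i = 0
    · exact Or.inl h0
    right
    have h1 : F i = SignType.sign (f i x) := (hx.2 i).resolve_left h0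
    have h2 : F i = SignType.sign (f i y) := (hy.2 i).resolve_left h0
    show F i = SignType.sign (f i (a • x + b • y))
    rw [map_add, map_smul, map_smul, smul_eq_mul, smul_eq_mul]
    rcases hs : F i with _ | _ | _
    · exact absurd hs h0
    · rw [hs] at h1 h2
      have h1' := sign_eq_neg_one_iff.1 h1.symm
      have h2' := sign_eq_neg_one_iff.1 h2.symm
      symm
      apply sign_eq_neg_one_iff.2
      rcases ha.lt_or_eq with h3 | h3
      · nlinarith [mul_neg_of_pos_of_neg h3 h1', mul_nonpos_of_nonneg_of_nonpos hb h2'.le]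
      · have : b = 1 := by linarith
        rw [← h3, this]; linarith
    · rw [hs] at h1 h2
      have h1' := sign_eq_one_iff.1 h1.symm
      have h2' := sign_eq_one_iff.1 h2.symm
      symm
      apply sign_eq_one_iff.2
      rcases ha.lt_or_eq with h3 | h3
      · nlinarith [mul_pos h3 h1', mul_nonneg hb h2'.le]
      · have : b = 1 := by linarith
        rw [← h3, this]; linarith
  · intro v hv w hw
    -- one epsilon for each index
    have key : ∀ s : Finset ι, ∃ ε : ℝ, 0 < ε ∧ ∀ δ, 0 ≤ δ → δ ≤ ε → ∀ i ∈ s, F i ≠ 0 →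
        F i = SignType.sign (f i (v + δ • w)) := by
      intro s
      induction s using Finset.induction_on with
      | empty => exact ⟨1, one_pos, fun δ _ _ i hi => absurd hi (Finset.notMem_empty i)⟩
      | insert i s _ ih =>
        obtain ⟨ε, hε, h1⟩ := ih
        obtain ⟨ε', hε', h2⟩ : ∃ ε : ℝ, 0 < ε ∧ ∀ δ, 0 ≤ δ → δ ≤ ε → F i ≠ 0 →
            F i = SignType.sign (f i (v + δ • w)) := by
          by_cases h0 : F i = 0
          · exact ⟨1, one_pos, fun _ _ _ h => absurd h0 h⟩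
          have hFi : F i = SignType.sign (f i v) := (hv.2 i).resolve_left h0
          have hne : f i v ≠ 0 := by
            intro h
            rw [h, sign_zero] at hFi
            exact h0 hFi
          have hd : 0 < 1 + |f i w| := by positivity
          refine ⟨|f i v| / (2 * (1 + |f i w|)), by positivity, fun δ hδ0 hδ _ => ?_⟩
          rw [hFi, map_add, map_smul, smul_eq_mul]
          have h3 : |δ * f i w| < |f i v| := by
            rw [abs_mul, abs_of_nonneg hδ0]
            have h4 : δ * |f i w| ≤ |f i v| / (2 * (1 + |f i w|)) * (1 + |f i w|) :=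
              mul_le_mul hδ (by linarith) (abs_nonneg _) (by positivity)
            have h5 : |f i v| / (2 * (1 + |f i w|)) * (1 + |f i w|) = |f i v| / 2 := by
              field_simp
            have h6 : 0 < |f i v| := abs_pos.2 hne
            linarith
          rcases lt_or_gt_of_ne hne with h | h
          · rw [sign_neg h]
            symm
            apply sign_eq_neg_one_iff.2
            rw [abs_of_neg h] at h3
            linarith [le_abs_self (δ * f i w)]
          · rw [sign_pos h]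
            symm
            apply sign_eq_one_iff.2
            rw [abs_of_pos h] at h3
            linarith [neg_abs_le (δ * f i w)]
        refine ⟨min ε ε', lt_min hε hε', fun δ h0 hδ j hj hne => ?_⟩
        rcases Finset.mem_insert.1 hj with h | h
        · subst h
          exact h2 δ h0 (hδ.trans (min_le_right _ _)) hne
        · exact h1 δ h0 (hδ.trans (min_le_left _ _)) j h hne
    obtain ⟨ε, hε, h1⟩ := key Finset.univ
    refine ⟨ε, hε, Z.1.add_mem hv.1 (Z.1.smul_mem _ hw), fun i => ?_⟩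
    by_cases h0 : F i = 0
    · exact Or.inl h0
    · exact Or.inr (h1 ε hε.le le_rfl i (Finset.mem_univ i) h0)

theorem euler_face [FiniteDimensional ℝ E] [Finite ι] (F : SV ι) (hF : F ∈ Faces f) (Z : Fl f)
    (h : fl f F ≤ Z) :
    ∑ᶠ G ∈ {G | G ∈ Faces f ∧ F ≤ G ∧ fl f G ≤ Z}, (-1 : ℤ) ^ (Module.finrank ℝ (fl f G).1)
      = (-1) ^ (Module.finrank ℝ Z.1) := by
  classical
  have := Fintype.ofFinite ι
  have hne : {v | v ∈ Z.1 ∧ F ≤ sgv f v}.Nonempty := by
    obtain ⟨v, rfl⟩ := hF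
    exact ⟨v, h ((mem_Zs f).2 fun j hj => sign_eq_zero_iff.1 hj), le_refl _⟩
  have h1 := euler f Finset.univ Z.1 _ (ro_above f F Z) hne
  have hsg : ∀ v, sgI f Finset.univ v = sgv f v := fun v => by
    funext i
    simp [sgI, sgv]
  have hle : ∀ v ∈ Z.1, fl f (sgv f v) ≤ Z := by
    intro v hv
    show Zs f (sgv f v) ≤ Z.1
    rw [← flat_eq f Z]
    intro w hw
    rw [mem_ZJ]
    intro i hi
    exact (mem_Zs f).1 hw i (by
      have : f i v = 0 := hi hv
      simp only [sgv, this, sign_zero])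
  have hset : sgI f Finset.univ '' {v | v ∈ Z.1 ∧ F ≤ sgv f v}
      = {G | G ∈ Faces f ∧ F ≤ G ∧ fl f G ≤ Z} := by
    ext G
    constructor
    · rintro ⟨v, hv, rfl⟩
      rw [hsg]
      exact ⟨⟨v, rfl⟩, hv.2, hle v hv.1⟩
    · rintro ⟨⟨v, rfl⟩, h2, h3⟩
      refine ⟨v, ⟨h3 ((mem_Zs f).2 fun j hj => sign_eq_zero_iff.1 hj), h2⟩, hsg v⟩
  rw [hset] at h1
  rw [← h1]
  refine finsum_mem_congr rfl fun G hG => ?_
  have : Z.1 ⊓ Zs f G = (fl f G).1 := inf_eq_right.2 hG.2.2
  rw [this]

theorem neg_one_cd [FiniteDimensional ℝ E] (Z : Fl f) :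
    (-1 : ℤ) ^ (Module.finrank ℝ Z.1) = (-1) ^ (Module.finrank ℝ E) * (-1) ^ (cd f Z) := by
  have h : Module.finrank ℝ Z.1 ≤ Module.finrank ℝ E := Submodule.finrank_le _
  have h2 : Module.finrank ℝ E + cd f Z = Module.finrank ℝ Z.1 + 2 * cd f Z := by
    rw [cd]; omega
  rw [← pow_add, h2, pow_add, pow_mul]
  norm_num

/-- The Euler relation, grouped by flats. -/
theorem euler_sum [FiniteDimensional ℝ E] [Finite ι] [Fintype (Fl f)] (F : SV ι) (hF : F ∈ Faces f)
    (Z : Fl f) (h : fl f F ≤ Z) [DecidableRel ((· ≤ ·) : Fl f → Fl f → Prop)] :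
    ∑ W : Fl f, (if W ≤ Z then (-1 : ℤ) ^ (cd f W) * (Nat.card (GG f F W) : ℤ) else 0)
      = (-1) ^ (cd f Z) := by
  classical
  have := Fintype.ofFinite (SV ι)
  have h1 := euler_face f F hF Z h
  have h2 : ∑ᶠ G ∈ {G | G ∈ Faces f ∧ F ≤ G ∧ fl f G ≤ Z}, (-1 : ℤ) ^ (Module.finrank ℝ (fl f G).1)
      = ∑ G ∈ Finset.univ.filter (fun G : SV ι => G ∈ Faces f ∧ F ≤ G ∧ fl f G ≤ Z),
        (-1 : ℤ) ^ (Module.finrank ℝ (fl f G).1) := by
    rw [← finsum_mem_coe_finset]
    refine finsum_mem_congr ?_ fun _ _ => rfl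
    ext G
    simp
  rw [h2, ← Finset.sum_fiberwise _ (fl f)] at h1
  have h3 : ∀ W : Fl f, ∑ G ∈ (Finset.univ.filter
        (fun G : SV ι => G ∈ Faces f ∧ F ≤ G ∧ fl f G ≤ Z)).filter (fun G => fl f G = W),
        (-1 : ℤ) ^ (Module.finrank ℝ (fl f G).1)
      = (-1) ^ (Module.finrank ℝ E) *
        (if W ≤ Z then (-1 : ℤ) ^ (cd f W) * (Nat.card (GG f F W) : ℤ) else 0) := by
    intro W
    rw [Finset.sum_congr rfl (g := fun _ => (-1 : ℤ) ^ (Module.finrank ℝ W.1)) (fun G hG => by
      rw [(Finset.mem_filter.1 hG).2])]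
    rw [Finset.sum_const, nsmul_eq_mul, neg_one_cd]
    split_ifs with hWZ
    · have : (((Finset.univ.filter (fun G : SV ι => G ∈ Faces f ∧ F ≤ G ∧ fl f G ≤ Z)).filter
          (fun G => fl f G = W)).card : ℤ) = (Nat.card (GG f F W) : ℤ) := by
        rw [Nat.card_eq_fintype_card, Fintype.card_subtype]
        congr 2
        ext G
        simp only [Finset.mem_filter, Finset.mem_univ, true_and]
        constructor
        · rintro ⟨⟨a, b, c⟩, d⟩
          exact ⟨a, b, d⟩
        · rintro ⟨a, b, d⟩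
          exact ⟨⟨a, b, d ▸ hWZ⟩, d⟩
      rw [this]
      ring
    · have : (Finset.univ.filter (fun G : SV ι => G ∈ Faces f ∧ F ≤ G ∧ fl f G ≤ Z)).filter
          (fun G => fl f G = W) = ∅ := by
        rw [Finset.filter_eq_empty_iff]
        intro G hG hW
        rw [Finset.mem_filter] at hG
        exact hWZ (hW ▸ hG.2.2.2)
      rw [this]
      simp
  rw [Finset.sum_congr rfl fun W _ => h3 W, ← Finset.mul_sum, neg_one_cd] at h1
  exact mul_left_cancel₀ (pow_ne_zero _ (by norm_num)) h1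

theorem cd_top [FiniteDimensional ℝ E] : cd f (⊤ : Fl f) = 0 := by
  rw [cd, top_val, finrank_top, Nat.sub_self]

theorem cd_eq_zero [FiniteDimensional ℝ E] {Z : Fl f} (h : cd f Z = 0) : Z = ⊤ := by
  apply Subtype.ext
  rw [top_val]
  apply Submodule.eq_top_of_finrank_eq
  have : Module.finrank ℝ Z.1 ≤ Module.finrank ℝ E := Submodule.finrank_le _
  rw [cd] at h
  omega

/-- A covering pair of flats has codimensions differing by one. -/
theorem cd_cover [FiniteDimensional ℝ E] {Z W : Fl f} (h : Z ⋖ W) : cd f Z = cd f W + 1 := by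
  obtain ⟨i, hi1, hi2⟩ : ∃ i, Z.1 ≤ LinearMap.ker (f i) ∧ ¬ W.1 ≤ LinearMap.ker (f i) := by
    by_contra hcon
    push Not at hcon
    apply h.lt.not_ge
    show W.1 ≤ Z.1
    rw [← flat_eq f Z]
    intro v hv
    rw [mem_ZJ]
    intro i hi
    exact hcon i hi hv
  have hfr := finrank_inf_ker W.1 (f i) hi2
  obtain ⟨J, hJ⟩ := W.2
  let V : Fl f := ⟨W.1 ⊓ LinearMap.ker (f i), insert i J, by
    ext v
    rw [Submodule.mem_inf, hJ, mem_ZJ, mem_ZJ, LinearMap.mem_ker]
    constructor
    · rintro ⟨h1, h2⟩ j (rfl | hj)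
      · exact h2
      · exact h1 j hj
    · intro h1
      exact ⟨fun j hj => h1 j (Or.inr hj), h1 i (Or.inl rfl)⟩⟩
  have h1 : Z ≤ V := le_inf h.lt.le hi1
  have h2 : V < W := by
    refine lt_of_le_of_ne (inf_le_left : W.1 ⊓ LinearMap.ker (f i) ≤ W.1) ?_
    intro heq
    apply hi2
    have : W.1 ⊓ LinearMap.ker (f i) = W.1 := congrArg Subtype.val heq
    exact inf_eq_left.1 this
  have h3 : Z = V := by
    rcases h1.lt_or_eq with h4 | h4
    · exact absurd h2 (h.2 h4)
    · exact h4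
  have h4 : Module.finrank ℝ Z.1 + 1 = Module.finrank ℝ W.1 := by
    rw [h3]; exact hfr
  have : Module.finrank ℝ W.1 ≤ Module.finrank ℝ E := Submodule.finrank_le _
  rw [cd, cd]
  omega

theorem cd_ker [FiniteDimensional ℝ E] {i : ι} (h : f i ≠ 0) :
    Module.finrank ℝ E - Module.finrank ℝ (LinearMap.ker (f i)) = 1 := by
  have := Module.Dual.finrank_ker_add_one_of_ne_zero (f := (f i : Module.Dual ℝ E)) h
  omega

theorem at_eq [FiniteDimensional ℝ E] (hf : ∀ i, f i ≠ 0)
    (hinj : Function.Injective fun i => LinearMap.ker (f i)) (Z : Fl f) :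
    at' f Z = Nat.card {W : Fl f // Z ≤ W ∧ cd f W = 1} := by
  have hker : ∀ i, (LinearMap.ker (f i)) = ZJ f {i} := by
    intro i
    ext v
    simp [mem_ZJ]
  refine Nat.card_congr (Equiv.ofBijective
    (fun i => ⟨⟨LinearMap.ker (f i.1), {i.1}, hker i.1⟩, i.2, cd_ker f (hf i.1)⟩) ⟨?_, ?_⟩)
  · intro i j hij
    apply Subtype.ext
    apply hinj
    exact congrArg (fun W => W.1.1) hij
  · rintro ⟨⟨W, J, rfl⟩, hZW, hcd⟩
    have hne : J.Nonempty := by
      rw [Set.nonempty_iff_ne_empty]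
      rintro rfl
      have h0 : (⟨ZJ f ∅, ∅, rfl⟩ : Fl f) = ⊤ := Subtype.ext (ZJ_empty f)
      have : cd f (⟨ZJ f ∅, ∅, rfl⟩ : Fl f) = 0 := by rw [h0, cd_top]
      omega
    obtain ⟨i, hi⟩ := hne
    have hle : ZJ f J ≤ LinearMap.ker (f i) := fun v hv => (mem_ZJ f).1 hv i hi
    have heq : ZJ f J = LinearMap.ker (f i) := by
      apply Submodule.eq_of_le_of_finrank_eq hle
      have h1 := Module.Dual.finrank_ker_add_one_of_ne_zero (f := (f i : Module.Dual ℝ E)) (hf i)
      have h2 : Module.finrank ℝ E - Module.finrank ℝ (ZJ f J) = 1 := hcd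
      have h3 := Submodule.finrank_mono hle
      have h4 : Module.finrank ℝ (LinearMap.ker (f i)) + 1 = Module.finrank ℝ E := h1
      omega
    refine ⟨⟨i, le_trans hZW hle⟩, ?_⟩
    apply Subtype.ext
    apply Subtype.ext
    exact heq.symm

end one

section two

variable {E : Type} [AddCommGroup E] [Module ℝ E] [FiniteDimensional ℝ E] {ι : Type} [Finite ι]
  (f : ι → (E →ₗ[ℝ] ℝ))
variable {E' : Type} [AddCommGroup E'] [Module ℝ E'] [FiniteDimensional ℝ E'] {ι' : Type}
  [Finite ι'] (f' : ι' → (E' →ₗ[ℝ] ℝ))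

omit [Finite ι] [Finite ι'] in
theorem cd_map (φ : Fl f ≃o Fl f') (Z : Fl f) : cd f' (φ Z) = cd f Z := by
  classical
  have : ∀ n, ∀ Z : Fl f, cd f Z = n → cd f' (φ Z) = n := by
    intro n
    induction n with
    | zero =>
      intro Z hZ
      rw [cd_eq_zero f hZ, map_top, cd_top]
    | succ n ih =>
      intro Z hZ
      have hne : Z < ⊤ := by
        refine lt_of_le_of_ne le_top ?_
        rintro rfl
        rw [cd_top] at hZ
        omega
      obtain ⟨W, hW, -⟩ := exists_covBy_le_of_lt hne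
      have h1 := cd_cover f hW
      have h2 := cd_cover f' ((apply_covBy_apply_iff φ).2 hW)
      rw [h2, ih W (by omega)]
  exact this _ Z rfl

omit [Finite ι] [Finite ι'] in
theorem at_map (hf : ∀ i, f i ≠ 0) (hinj : Function.Injective fun i => LinearMap.ker (f i))
    (hf' : ∀ i, f' i ≠ 0) (hinj' : Function.Injective fun i => LinearMap.ker (f' i))
    (φ : Fl f ≃o Fl f') (Z : Fl f) : at' f' (φ Z) = at' f Z := by
  rw [at_eq f hf hinj, at_eq f' hf' hinj']
  symm
  refine Nat.card_congr (φ.toEquiv.subtypeEquiv fun W => ?_)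
  show Z ≤ W ∧ cd f W = 1 ↔ φ Z ≤ φ W ∧ cd f' (φ W) = 1
  rw [cd_map f f' φ W, φ.le_iff_le]

theorem card_GG (φ : Fl f ≃o Fl f') {F : SV ι} {F' : SV ι'} (hF : F ∈ Faces f) (hF' : F' ∈ Faces f')
    (hφ : φ (fl f F) = fl f' F') (Z : Fl f) : Nat.card (GG f F Z) = Nat.card (GG f' F' (φ Z)) := by
  classical
  have := Fintype.ofFinite (Fl f)
  have := Fintype.ofFinite (Fl f')
  induction Z using WellFoundedLT.induction with
  | ind Z ih =>
    by_cases hZ : fl f F ≤ Z
    · have h1 := euler_sum f F hF Z hZ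
      have h2 := euler_sum f' F' hF' (φ Z) (by rw [← hφ]; exact φ.monotone hZ)
      rw [cd_map f f' φ Z, ← Equiv.sum_comp φ.toEquiv] at h2
      rw [← h2] at h1
      have h3 : ∑ W : Fl f, ((if W ≤ Z then (-1 : ℤ) ^ (cd f W) * (Nat.card (GG f F W) : ℤ) else 0)
          - (if φ.toEquiv W ≤ φ Z then (-1 : ℤ) ^ (cd f' (φ.toEquiv W)) *
            (Nat.card (GG f' F' (φ.toEquiv W)) : ℤ) else 0)) = 0 := by
        rw [Finset.sum_sub_distrib, h1, sub_self]
      rw [Finset.sum_eq_single Z] at h3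
      · have e1 : φ.toEquiv Z = φ Z := rfl
        rw [if_pos le_rfl, e1, if_pos le_rfl, cd_map f f' φ Z, ← mul_sub] at h3
        have h4 := (mul_eq_zero.1 h3).resolve_left (pow_ne_zero _ (by norm_num))
        exact_mod_cast sub_eq_zero.1 h4
      · intro W _ hne
        have e1 : φ.toEquiv W = φ W := rfl
        rw [e1]
        by_cases hW : W ≤ Z
        · rw [if_pos hW, if_pos (φ.monotone hW), cd_map f f' φ W, ih W (lt_of_le_of_ne hW hne), sub_self]
        · rw [if_neg hW, if_neg (fun h => hW (φ.le_iff_le.1 h)), sub_self]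
      · intro h
        exact absurd (Finset.mem_univ Z) h
    · have h1 : IsEmpty (GG f F Z) := ⟨fun G => hZ (by
        have := fl_mono f G.2.2.1
        rwa [G.2.2.2] at this)⟩
      have h2 : IsEmpty (GG f' F' (φ Z)) := ⟨fun G => hZ (by
        have := fl_mono f' G.2.2.1
        rw [G.2.2.2, ← hφ] at this
        exact φ.le_iff_le.1 this)⟩
      rw [Nat.card_of_isEmpty, Nat.card_of_isEmpty]

end two

end Pool.Agent.V8H61.MC
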