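import Pool.Agent.V8H61.MC.Flat

/-!
# The index set of the magnitude homology depends only on the lattice of flats
-/

set_option autoImplicit false

namespace Pool.Agent.V8H61.MC

open Pool.Agent.V8H14.MHA

section one

variable {E : Type} [AddCommGroup E] [Module ℝ E] {ι : Type} (f : ι → (E →ₗ[ℝ] ℝ))

/-- The flat `Z` is spanned by a face of `σ`. -/
def PP (Z : Fl f) (σ : SV ι) : Prop := ∃ G ∈ Faces f, G ≤ σ ∧ fl f G = Z

/-- The topes above `F` having faces spanning the flats of a list. -/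
abbrev TT (F : SV ι) (Ls : List (Fl f)) : Type :=
  {y : Topes f // F ≤ y.1 ∧ ∀ Z ∈ Ls, PP f Z y.1}

theorem ttNil (hf : ∀ i, f i ≠ 0) (F : SV ι) : Nonempty (GG f F ⊤ ≃ TT f F []) := by
  have h0 : ∀ G ∈ Faces f, fl f G = ⊤ ↔ ∀ i, G i ≠ 0 := by
    intro G hG
    constructor
    · intro h i hi
      rw [zero_iff f hG, h, top_val, top_le_iff, LinearMap.ker_eq_top] at hi
      exact hf i hi
    · intro h
      apply Subtype.ext
      rw [top_val]
      show Zs f G = ⊤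
      rw [eq_top_iff]
      intro v _
      rw [mem_Zs]
      intro i hi
      exact absurd hi (h i)
  exact ⟨{
    toFun := fun G => ⟨⟨G.1, G.2.1, (h0 G.1 G.2.1).1 G.2.2.2⟩, G.2.2.1, by simp⟩
    invFun := fun y => ⟨y.1.1, y.1.2.1, y.2.1, (h0 _ y.1.2.1).2 y.1.2.2⟩
    left_inv := fun G => rfl
    right_inv := fun y => rfl }⟩

theorem ttCons (F : SV ι) (hF : F ∈ Faces f) (Z : Fl f) (Ls : List (Fl f)) (hZ : fl f F ≤ Z) :
    Nonempty ((Σ G : GG f F Z, TT f G.1 Ls) ≃ TT f F (Z :: Ls)) := by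
  refine ⟨Equiv.ofBijective (fun p => ⟨p.2.1, le_trans p.1.2.2.1 p.2.2.1, ?_⟩) ⟨?_, ?_⟩⟩
  · intro Z' hZ'
    rcases List.mem_cons.1 hZ' with h | h
    · subst h
      exact ⟨p.1.1, p.1.2.1, p.2.2.1, p.1.2.2.2⟩
    · exact p.2.2.2 Z' h
  · rintro ⟨⟨G, hG⟩, ⟨y, hy⟩⟩ ⟨⟨G', hG'⟩, ⟨y', hy'⟩⟩ h
    have hyy : y = y' := congrArg Subtype.val h
    subst hyy
    have hGG : G = G' := by
      apply le_antisymm
      · exact le_of_fl_le f hG.1 hG'.1 hy.1 hy'.1 (by rw [hG.2.2, hG'.2.2])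
      · exact le_of_fl_le f hG'.1 hG.1 hy'.1 hy.1 (by rw [hG.2.2, hG'.2.2])
    subst hGG
    rfl
  · rintro ⟨y, hy1, hy2⟩
    obtain ⟨G, hG, hGy, hGZ⟩ := hy2 Z List.mem_cons_self
    exact ⟨⟨⟨G, hG, le_of_fl_le f hF hG hy1 hGy (by rw [hGZ]; exact hZ), hGZ⟩,
      ⟨y, hGy, fun Z' hZ' => hy2 Z' (List.mem_cons_of_mem _ hZ')⟩⟩, rfl⟩

end one

section two

variable {E : Type} [AddCommGroup E] [Module ℝ E] [FiniteDimensional ℝ E] {ι : Type} [Finite ι]
  (f : ι → (E →ₗ[ℝ] ℝ))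
variable {E' : Type} [AddCommGroup E'] [Module ℝ E'] [FiniteDimensional ℝ E'] {ι' : Type}
  [Finite ι'] (f' : ι' → (E' →ₗ[ℝ] ℝ))

theorem tt_equiv (hf : ∀ i, f i ≠ 0) (hf' : ∀ i, f' i ≠ 0) (φ : Fl f ≃o Fl f') (Ls : List (Fl f)) :
    ∀ (F : SV ι) (F' : SV ι'), F ∈ Faces f → F' ∈ Faces f' → φ (fl f F) = fl f' F' →
      (fl f F :: Ls).Pairwise (· ≤ ·) → Nonempty (TT f F Ls ≃ TT f' F' (Ls.map φ)) := by
  induction Ls with
  | nil =>
    intro F F' hF hF' hφ _
    obtain ⟨e1⟩ := ttNil f hf F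
    obtain ⟨e2⟩ := ttNil f' hf' F'
    have h := card_GG f f' φ hF hF' hφ ⊤
    rw [map_top] at h
    obtain ⟨e3⟩ := Finite.card_eq.1 h
    exact ⟨e1.symm.trans (e3.trans e2)⟩
  | cons Z Ls ih =>
    intro F F' hF hF' hφ hs
    have hZ : fl f F ≤ Z := (List.pairwise_cons.1 hs).1 Z List.mem_cons_self
    have hs' : (Z :: Ls).Pairwise (· ≤ ·) := (List.pairwise_cons.1 hs).2
    obtain ⟨e1⟩ := ttCons f F hF Z Ls hZ
    obtain ⟨e2⟩ := ttCons f' F' hF' (φ Z) (Ls.map φ) (by rw [← hφ]; exact φ.monotone hZ)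
    obtain ⟨e3⟩ := Finite.card_eq.1 (card_GG f f' φ hF hF' hφ Z)
    refine ⟨e1.symm.trans (Equiv.trans (Equiv.sigmaCongr e3 fun G => Classical.choice ?_) e2)⟩
    refine ih G.1 (e3 G).1 G.2.1 (e3 G).2.1 ?_ ?_
    · rw [G.2.2.2, (e3 G).2.2.2]
    · rw [G.2.2.2]
      exact hs'

end two

section three

variable {E : Type} [AddCommGroup E] [Module ℝ E] {ι : Type} (f : ι → (E →ₗ[ℝ] ℝ))

/-- The increasing sequences of flats with given sums of the numbers of hyperplanes and of the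
codimensions. -/
abbrev Sq (k l : ℕ) : Type :=
  {X : Fin l → Fl f // Monotone X ∧ ∑ j, at' f (X j) = l ∧ ∑ j, cd f (X j) = k}

/-- The index set in terms of flats. -/
abbrev Idx2 (k l : ℕ) : Type := Σ X : Sq f k l, {y : Topes f // ∀ j, PP f (X.1 j) y.1}

open Classical in
/-- The function with given level flats. -/
noncomputable def cX {l : ℕ} (X : Fin l → Fl f) (i : ι) : ℕ :=
  (Finset.univ.filter fun j : Fin l => (X j).1 ≤ LinearMap.ker (f i)).card

theorem cX_le {l : ℕ} (X : Fin l → Fl f) (i : ι) : cX f X i ≤ l := by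
  classical
  rw [cX]
  refine (Finset.card_le_univ _).trans ?_
  rw [Fintype.card_fin]

theorem le_cX {l : ℕ} {X : Fin l → Fl f} (hX : Monotone X) (i : ι) (j : Fin l) :
    j.1 + 1 ≤ cX f X i ↔ (X j).1 ≤ LinearMap.ker (f i) := by
  classical
  rw [cX]
  constructor
  · intro h
    by_contra hcon
    have hsub : (Finset.univ.filter fun j : Fin l => (X j).1 ≤ LinearMap.ker (f i)) ⊆ Finset.Iio j := by
      intro m hm
      rw [Finset.mem_Iio]
      by_contra hle
      exact hcon (le_trans (hX (not_lt.1 hle)) (Finset.mem_filter.1 hm).2)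
    have := Finset.card_le_card hsub
    rw [Fin.card_Iio] at this
    omega
  · intro h
    have hsub : Finset.Iic j ⊆ (Finset.univ.filter fun j : Fin l => (X j).1 ≤ LinearMap.ker (f i)) := by
      intro m hm
      rw [Finset.mem_Iic] at hm
      rw [Finset.mem_filter]
      exact ⟨Finset.mem_univ _, le_trans (hX hm) h⟩
    have := Finset.card_le_card hsub
    rw [Fin.card_Iic] at this
    exact this

theorem sum_cX [Fintype ι] {l : ℕ} (X : Fin l → Fl f) : ∑ i, cX f X i = ∑ j, at' f (X j) := by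
  classical
  simp only [cX, at', Nat.card_eq_fintype_card, Fintype.card_subtype, Finset.card_filter]
  rw [Finset.sum_comm]

theorem ZJ_cX {l : ℕ} {X : Fin l → Fl f} (hX : Monotone X) (j : Fin l) :
    ZJ f {i | j.1 + 1 ≤ cX f X i} = (X j).1 := by
  rw [← flat_eq f (X j)]
  congr 1
  ext i
  exact le_cX f hX i j

theorem degc_cX [Fintype ι] {l : ℕ} {X : Fin l → Fl f} (hX : Monotone X) (hl : ∑ i, cX f X i = l) :
    degc f (cX f X) = ∑ j, cd f (X j) := by
  rw [degc, hl]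
  have h1 : Finset.Icc 1 l = Finset.Ico 1 (l + 1) := by
    ext n
    simp only [Finset.mem_Icc, Finset.mem_Ico]
    omega
  rw [h1, Finset.sum_Ico_eq_sum_range, Nat.add_sub_cancel, ← Fin.sum_univ_eq_sum_range
    (fun n => Module.finrank ℝ E - Module.finrank ℝ (ZJ f {i | 1 + n ≤ cX f X i}))]
  refine Finset.sum_congr rfl fun j _ => ?_
  rw [cd, ← ZJ_cX f hX j, add_comm]

theorem PP_iff {l : ℕ} {X : Fin l → Fl f} (hX : Monotone X) (j : Fin l) (σ : SV ι) :
    PP f (X j) σ ↔ ∃ F ∈ Faces f, F ≤ σ ∧ ∀ i, F i = 0 ↔ j.1 + 1 ≤ cX f X i := by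
  constructor
  · rintro ⟨G, hG, h1, h2⟩
    refine ⟨G, hG, h1, fun i => ?_⟩
    rw [zero_iff f hG, h2, le_cX f hX]
  · rintro ⟨G, hG, h1, h2⟩
    refine ⟨G, hG, h1, ?_⟩
    apply Subtype.ext
    rw [← ZJ_cX f hX j]
    show ZJ f {i | G i = 0} = _
    congr 1
    ext i
    exact h2 i

theorem idx_equiv [Fintype ι] (k l : ℕ) : Nonempty (Idx2 f k l ≃ Idx f k l) := by
  classical
  refine ⟨Equiv.ofBijective (fun p => ⟨(p.2.1, cX f p.1.1), ?_, ?_, ?_⟩) ⟨?_, ?_⟩⟩
  · intro n hn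
    by_cases hnl : n ≤ l
    · obtain ⟨F, hF, h1, h2⟩ := (PP_iff f p.1.2.1 ⟨n - 1, by omega⟩ _).1 (p.2.2 ⟨n - 1, by omega⟩)
      refine ⟨F, hF, h1, fun i => ?_⟩
      rw [h2 i]
      show n - 1 + 1 ≤ _ ↔ _
      rw [Nat.sub_add_cancel hn]
    · refine ⟨p.2.1.1, p.2.1.2.1, le_refl _, fun i => ?_⟩
      have h1 := cX_le f p.1.1 i
      have h2 := p.2.1.2.2 i
      constructor
      · intro h; exact absurd h h2
      · intro h
        have h' : n ≤ cX f p.1.1 i := h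
        omega
  · show ∑ i, cX f p.1.1 i = l
    rw [sum_cX, p.1.2.2.1]
  · show degc f (cX f p.1.1) = k
    rw [degc_cX f p.1.2.1 (by rw [sum_cX, p.1.2.2.1]), p.1.2.2.2]
  · rintro ⟨⟨X, hX⟩, ⟨y, hy⟩⟩ ⟨⟨X', hX'⟩, ⟨y', hy'⟩⟩ h
    have h1 : (y, cX f X) = (y', cX f X') := congrArg Subtype.val h
    rw [Prod.mk.injEq] at h1
    obtain ⟨h2, h3⟩ := h1
    subst h2
    have h4 : X = X' := by
      funext j
      apply Subtype.ext
      rw [← ZJ_cX f hX.1 j, ← ZJ_cX f hX'.1 j, h3]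
    subst h4
    rfl
  · rintro ⟨⟨y, c⟩, hgood, hsum, hdeg⟩
    have hgood : good y c := hgood
    have hsum : ∑ i, c i = l := hsum
    have hdeg : degc f c = k := hdeg
    let X : Fin l → Fl f := fun j => ⟨ZJ f {i | j.1 + 1 ≤ c i}, _, rfl⟩
    have hX : Monotone X := by
      intro j j' hjj v hv
      have hv' : v ∈ ZJ f {i | j.1 + 1 ≤ c i} := hv
      show v ∈ ZJ f {i | j'.1 + 1 ≤ c i}
      rw [mem_ZJ] at hv' ⊢
      intro i hi
      refine hv' i ?_
      have h1 : j.1 ≤ j'.1 := hjj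
      have h2 : j'.1 + 1 ≤ c i := hi
      show j.1 + 1 ≤ c i
      omega
    have hker : ∀ (j : Fin l) i, (X j).1 ≤ LinearMap.ker (f i) ↔ j.1 + 1 ≤ c i := by
      intro j i
      obtain ⟨F, hF, -, h2⟩ := hgood (j.1 + 1) (by omega)
      rw [← h2 i, zero_iff f hF]
      have : (X j).1 = (fl f F).1 := by
        show ZJ f {i | j.1 + 1 ≤ c i} = ZJ f {i | F i = 0}
        congr 1
        ext i
        exact (h2 i).symm
      rw [this]
    have hcle : ∀ i, c i ≤ l := fun i => by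
      rw [← hsum]
      exact Finset.single_le_sum (f := c) (fun _ _ => Nat.zero_le _) (Finset.mem_univ i)
    have hc : cX f X = c := by
      funext i
      have h1 := cX_le f X i
      have h2 := hcle i
      rcases lt_trichotomy (cX f X i) (c i) with h | h | h
      · have h3 := (hker ⟨cX f X i, by omega⟩ i).2 (by show cX f X i + 1 ≤ c i; omega)
        have h4 := (le_cX f hX i _).2 h3
        have h5 : cX f X i + 1 ≤ cX f X i := h4
        omega
      · exact h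
      · have h3 := (le_cX f hX i ⟨c i, by omega⟩).1 (by show c i + 1 ≤ cX f X i; omega)
        have h4 : c i + 1 ≤ c i := (hker _ i).1 h3
        omega
    have hs1 : ∑ j, at' f (X j) = l := by
      rw [← sum_cX, hc, hsum]
    have hs2 : ∑ j, cd f (X j) = k := by
      rw [← degc_cX f hX (by rw [hc, hsum]), hc, hdeg]
    refine ⟨⟨⟨X, hX, hs1, hs2⟩, ⟨y, fun j => ?_⟩⟩, ?_⟩
    · rw [PP_iff f hX, hc]
      exact hgood (j.1 + 1) (by omega)
    · apply Subtype.ext
      show (y, cX f X) = (y, c)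
      rw [hc]

end three

section four

variable {E : Type} [AddCommGroup E] [Module ℝ E] [FiniteDimensional ℝ E] {ι : Type} [Fintype ι]
  (f : ι → (E →ₗ[ℝ] ℝ))
variable {E' : Type} [AddCommGroup E'] [Module ℝ E'] [FiniteDimensional ℝ E'] {ι' : Type}
  [Fintype ι'] (f' : ι' → (E' →ₗ[ℝ] ℝ))

/-- The zero sign vector. -/
def zeroV (ι : Type) : SV ι := fun _ => 0

theorem zeroV_mem {E : Type} [AddCommGroup E] [Module ℝ E] {ι : Type} (f : ι → (E →ₗ[ℝ] ℝ)) :
    zeroV ι ∈ Faces f := ⟨0, by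
  funext i
  simp [sgv, zeroV]⟩

theorem fl_zeroV_le {E : Type} [AddCommGroup E] [Module ℝ E] {ι : Type} (f : ι → (E →ₗ[ℝ] ℝ))
    (Z : Fl f) : fl f (zeroV ι) ≤ Z := by
  obtain ⟨Z, J, rfl⟩ := Z
  intro v hv
  have hv' : v ∈ Zs f (zeroV ι) := hv
  rw [mem_Zs] at hv'
  exact (mem_ZJ f).2 fun i _ => hv' i rfl

/-- The number of indices depends only on the lattice of flats. -/
theorem count_general (hf : ∀ i, f i ≠ 0) (hinj : Function.Injective fun i => LinearMap.ker (f i))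
    (hf' : ∀ i, f' i ≠ 0) (hinj' : Function.Injective fun i => LinearMap.ker (f' i))
    (φ : Fl f ≃o Fl f') (k l : ℕ) : Nat.card (Idx f k l) = Nat.card (Idx f' k l) := by
  obtain ⟨e1⟩ := idx_equiv f k l
  obtain ⟨e2⟩ := idx_equiv f' k l
  have hzero : φ (fl f (zeroV ι)) = fl f' (zeroV ι') := by
    apply le_antisymm
    · rw [← φ.le_symm_apply]
      exact fl_zeroV_le f _
    · exact fl_zeroV_le f' _
  let eS : Sq f k l ≃ Sq f' k l := {
    toFun := fun X => ⟨fun j => φ (X.1 j), φ.monotone.comp X.2.1, by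
      simp only [at_map f f' hf hinj hf' hinj' φ]
      exact X.2.2.1, by
      simp only [cd_map f f' φ]
      exact X.2.2.2⟩
    invFun := fun X => ⟨fun j => φ.symm (X.1 j), φ.symm.monotone.comp X.2.1, by
      simp only [at_map f' f hf' hinj' hf hinj φ.symm]
      exact X.2.2.1, by
      simp only [cd_map f' f φ.symm]
      exact X.2.2.2⟩
    left_inv := fun X => Subtype.ext (by funext j; simp)
    right_inv := fun X => Subtype.ext (by funext j; simp) }
  have e3 : Nonempty (Idx2 f k l ≃ Idx2 f' k l) := by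
    refine ⟨Equiv.sigmaCongr eS fun X => Classical.choice ?_⟩
    obtain ⟨e4⟩ := tt_equiv f f' hf hf' φ (List.ofFn X.1) (zeroV ι) (zeroV ι') (zeroV_mem f)
      (zeroV_mem f') hzero (by
        rw [List.pairwise_cons]
        refine ⟨fun Z _ => fl_zeroV_le f Z, ?_⟩
        rw [List.pairwise_ofFn]
        exact fun i j hij => X.2.1 hij.le)
    have h5 : ∀ y : Topes f, (zeroV ι ≤ y.1 ∧ ∀ Z ∈ List.ofFn X.1, PP f Z y.1) ↔
        ∀ j, PP f (X.1 j) y.1 := by
      intro y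
      constructor
      · intro h j
        exact h.2 _ (List.mem_ofFn.2 ⟨j, rfl⟩)
      · intro h
        refine ⟨fun i => Or.inl rfl, fun Z hZ => ?_⟩
        obtain ⟨j, rfl⟩ := List.mem_ofFn.1 hZ
        exact h j
    have h6 : ∀ y : Topes f', (zeroV ι' ≤ y.1 ∧ ∀ Z ∈ (List.ofFn X.1).map φ, PP f' Z y.1) ↔
        ∀ j, PP f' ((eS X).1 j) y.1 := by
      intro y
      constructor
      · intro h j
        exact h.2 _ (List.mem_map.2 ⟨X.1 j, List.mem_ofFn.2 ⟨j, rfl⟩, rfl⟩)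
      · intro h
        refine ⟨fun i => Or.inl rfl, fun Z hZ => ?_⟩
        obtain ⟨Z', hZ', rfl⟩ := List.mem_map.1 hZ
        obtain ⟨j, rfl⟩ := List.mem_ofFn.1 hZ'
        exact h j
    exact ⟨(Equiv.subtypeEquivRight h5).symm.trans (e4.trans (Equiv.subtypeEquivRight h6))⟩
  obtain ⟨e3⟩ := e3
  exact Nat.card_congr (e1.symm.trans (e3.trans e2))

end four

end Pool.Agent.V8H61.MC
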