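import Pool.Agent.V8H14.MHA.Base

/-!
# The Euler relation for the faces of an arrangement inside a relatively open convex set
-/

set_option autoImplicit false

namespace Pool.Agent.V8H61.MC

open Pool.Agent.V8H14.MHA

variable {E : Type} [AddCommGroup E] [Module ℝ E] {ι : Type} (f : ι → (E →ₗ[ℝ] ℝ))

theorem mem_ZJ {J : Set ι} {v : E} : v ∈ ZJ f J ↔ ∀ i ∈ J, f i v = 0 := by
  simp [ZJ, Submodule.mem_iInf]

theorem mem_Zs {σ : SV ι} {v : E} : v ∈ Zs f σ ↔ ∀ i, σ i = 0 → f i v = 0 := by
  simp [Zs, mem_ZJ]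

theorem finrank_inf_ker [FiniteDimensional ℝ E] (X : Submodule ℝ E) (g : E →ₗ[ℝ] ℝ)
    (h : ¬ X ≤ LinearMap.ker g) :
    Module.finrank ℝ (X ⊓ LinearMap.ker g : Submodule ℝ E) + 1 = Module.finrank ℝ X := by
  have h1 : (g.domRestrict X : Module.Dual ℝ X) ≠ 0 := by
    intro h0
    apply h
    intro x hx
    have := LinearMap.congr_fun h0 ⟨x, hx⟩
    simpa using this
  have h2 := Module.Dual.finrank_ker_add_one_of_ne_zero h1
  have h3 : (LinearMap.ker (g.domRestrict X)).map X.subtype = X ⊓ LinearMap.ker g := by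
    ext x
    constructor
    · rintro ⟨⟨y, hy⟩, hy', rfl⟩
      exact ⟨hy, by simpa using hy'⟩
    · rintro ⟨hx, hx'⟩
      exact ⟨⟨x, hx⟩, by simpa using hx', rfl⟩
  rw [← h3, ← h2]
  congr 1
  exact (LinearEquiv.finrank_eq (Submodule.equivMapOfInjective X.subtype X.injective_subtype
    (LinearMap.ker (g.domRestrict X)))).symm

/-- `Q` is a convex subset of `X`, open in `X`. -/
structure RO (X : Submodule ℝ E) (Q : Set E) : Prop where
  sub : ∀ v ∈ Q, v ∈ X
  conv : Convex ℝ Q
  opn : ∀ v ∈ Q, ∀ w ∈ X, ∃ ε : ℝ, 0 < ε ∧ v + ε • w ∈ Q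

theorem RO.small {X : Submodule ℝ E} {Q : Set E} (h : RO X Q) {v w : E} (hv : v ∈ Q) (hw : w ∈ X) :
    ∃ ε : ℝ, 0 < ε ∧ ∀ δ, 0 ≤ δ → δ ≤ ε → v + δ • w ∈ Q := by
  obtain ⟨ε, hε, h1⟩ := h.opn v hv w hw
  refine ⟨ε, hε, fun δ h0 hδ => ?_⟩
  have := h.conv hv h1 (a := 1 - δ / ε) (b := δ / ε)
    (by rw [sub_nonneg, div_le_one hε]; exact hδ) (by positivity) (by ring)
  convert this using 1
  rw [smul_add, smul_smul, div_mul_cancel₀ _ hε.ne', ← add_assoc, ← add_smul]
  simp

theorem RO.pos {X : Submodule ℝ E} {Q : Set E} (h : RO X Q) (g : E →ₗ[ℝ] ℝ) :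
    RO X {v | v ∈ Q ∧ 0 < g v} := by
  refine ⟨fun v hv => h.sub v hv.1, ?_, ?_⟩
  · intro x hx y hy a b ha hb hab
    refine ⟨h.conv hx.1 hy.1 ha hb hab, ?_⟩
    rw [map_add, map_smul, map_smul, smul_eq_mul, smul_eq_mul]
    rcases ha.lt_or_eq with h1 | h1
    · nlinarith [mul_pos h1 hx.2, mul_nonneg hb hy.2.le]
    · have : b = 1 := by linarith
      rw [← h1, this]
      have := hy.2
      linarith
  · intro v hv w hw
    obtain ⟨ε, hε, h1⟩ := h.small hv.1 hw
    have hv2 := hv.2
    have hd : 0 < 1 + |g w| := by positivity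
    refine ⟨min ε (g v / (1 + |g w|)), lt_min hε (div_pos hv2 hd), h1 _ ?_ (min_le_left _ _), ?_⟩
    · exact le_min hε.le (div_pos hv2 hd).le
    · rw [map_add, map_smul, smul_eq_mul]
      have h2 : min ε (g v / (1 + |g w|)) * |g w| ≤ g v / (1 + |g w|) * |g w| :=
        mul_le_mul_of_nonneg_right (min_le_right _ _) (abs_nonneg _)
      have h3 : g v / (1 + |g w|) * |g w| < g v := by
        rw [div_mul_eq_mul_div, div_lt_iff₀ hd]
        nlinarith
      have h4 : -(min ε (g v / (1 + |g w|)) * |g w|) ≤ min ε (g v / (1 + |g w|)) * g w := by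
        rw [← mul_neg]
        exact mul_le_mul_of_nonneg_left (neg_abs_le _) (le_min hε.le (div_pos hv2 hd).le)
      linarith

theorem RO.zero {X : Submodule ℝ E} {Q : Set E} (h : RO X Q) (g : E →ₗ[ℝ] ℝ) :
    RO (X ⊓ LinearMap.ker g) {v | v ∈ Q ∧ g v = 0} := by
  refine ⟨fun v hv => ⟨h.sub v hv.1, hv.2⟩, ?_, ?_⟩
  · intro x hx y hy a b ha hb hab
    refine ⟨h.conv hx.1 hy.1 ha hb hab, ?_⟩
    rw [map_add, map_smul, map_smul, hx.2, hy.2]
    simp
  · intro v hv w hw
    obtain ⟨ε, hε, h1⟩ := h.opn v hv.1 w hw.1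
    refine ⟨ε, hε, h1, ?_⟩
    rw [map_add, map_smul, hv.2, LinearMap.mem_ker.1 hw.2]
    simp

/-- The part of `Q` where the form `g` has sign `s`. -/
def Qs (Q : Set E) (g : E →ₗ[ℝ] ℝ) (s : SignType) : Set E := {v | v ∈ Q ∧ SignType.sign (g v) = s}

theorem RO.one' {X : Submodule ℝ E} {Q : Set E} (h : RO X Q) (g : E →ₗ[ℝ] ℝ) :
    RO X (Qs Q g 1) := by
  have := h.pos g
  simpa only [Qs, sign_eq_one_iff] using this

theorem RO.neg' {X : Submodule ℝ E} {Q : Set E} (h : RO X Q) (g : E →ₗ[ℝ] ℝ) :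
    RO X (Qs Q g (-1)) := by
  have := h.pos (-g)
  simpa only [Qs, sign_eq_neg_one_iff, LinearMap.neg_apply, neg_pos] using this

theorem RO.zero' {X : Submodule ℝ E} {Q : Set E} (h : RO X Q) (g : E →ₗ[ℝ] ℝ) :
    RO (X ⊓ LinearMap.ker g) (Qs Q g 0) := by
  have := h.zero g
  simpa only [Qs, sign_eq_zero_iff] using this

open Classical in
/-- The signs of a point on the index set `I` (and `1` elsewhere). -/
noncomputable def sgI (I : Finset ι) (v : E) : SV ι :=
  fun i => if i ∈ I then SignType.sign (f i v) else 1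

instance [Finite ι] : Finite (SV ι) := inferInstanceAs (Finite (ι → SignType))

/-- The constant sign vector `1`. -/
def oneV (ι : Type) : SV ι := fun _ => 1

theorem euler [FiniteDimensional ℝ E] [Finite ι] (I : Finset ι) :
    ∀ (X : Submodule ℝ E) (Q : Set E), RO X Q → Q.Nonempty →
      ∑ᶠ τ ∈ sgI f I '' Q, (-1 : ℤ) ^ (Module.finrank ℝ (X ⊓ Zs f τ : Submodule ℝ E))
        = (-1) ^ (Module.finrank ℝ X) := by
  classical
  induction I using Finset.induction_on with
  | empty =>
    intro X Q _ hne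
    have h1 : sgI f (∅ : Finset ι) '' Q = {oneV ι} := by
      ext τ
      constructor
      · rintro ⟨v, _, rfl⟩
        funext i
        simp [sgI, oneV]
      · intro hτ
        obtain ⟨v, hv⟩ := hne
        refine ⟨v, hv, ?_⟩
        rw [Set.mem_singleton_iff.1 hτ]
        funext i
        simp [sgI, oneV]
    have : Zs f (oneV ι) = ⊤ := by
      rw [eq_top_iff]
      intro v _
      rw [mem_Zs]
      intro i hi
      exact absurd (hi : (1 : SignType) = 0) one_ne_zero
    rw [h1, finsum_mem_singleton, this, inf_top_eq]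
  | insert i I hi ih =>
    intro X Q hQ hne
    let T : SignType → Set (SV ι) := fun s => sgI f I '' (Qs Q (f i) s)
    let u : SignType → SV ι → SV ι := fun s τ => Function.update (τ : ι → SignType) i s
    have hT1 : ∀ s, ∀ τ ∈ T s, τ i = 1 := by
      rintro s τ ⟨v, _, rfl⟩
      simp [sgI, hi]
    have hinj : ∀ s, Set.InjOn (u s) (T s) := by
      intro s τ hτ τ' hτ' h
      funext j
      by_cases hj : j = i
      · subst hj
        rw [hT1 s τ hτ, hT1 s τ' hτ']
      · have := congrFun h j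
        simpa [u, Function.update_of_ne hj] using this
    have hsg : ∀ v, sgI f (insert i I) v = u (SignType.sign (f i v)) (sgI f I v) := by
      intro v
      funext j
      by_cases hj : j = i
      · subst hj
        simp [sgI, u]
      · simp [sgI, u, hj]
    have hui : ∀ s τ, (u s τ) i = s := fun s τ => by simp [u]
    have hset : sgI f (insert i I) '' Q = (u 1 '' T 1) ∪ ((u (-1) '' T (-1)) ∪ (u 0 '' T 0)) := by
      ext τ
      constructor
      · rintro ⟨v, hv, rfl⟩
        rw [hsg]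
        rcases hs : SignType.sign (f i v) with _ | _ | _
        · right; right
          exact ⟨_, ⟨v, ⟨hv, hs⟩, rfl⟩, rfl⟩
        · right; left
          exact ⟨_, ⟨v, ⟨hv, hs⟩, rfl⟩, rfl⟩
        · left
          exact ⟨_, ⟨v, ⟨hv, hs⟩, rfl⟩, rfl⟩
      · rintro (⟨_, ⟨v, ⟨hv, hs⟩, rfl⟩, rfl⟩ | ⟨_, ⟨v, ⟨hv, hs⟩, rfl⟩, rfl⟩ |
          ⟨_, ⟨v, ⟨hv, hs⟩, rfl⟩, rfl⟩) <;>
        exact ⟨v, hv, by rw [hsg, hs]⟩
    have hdis1 : Disjoint (u 1 '' T 1) ((u (-1) '' T (-1)) ∪ (u 0 '' T 0)) := by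
      rw [Set.disjoint_left]
      rintro _ ⟨τ, _, rfl⟩ (⟨τ', _, h⟩ | ⟨τ', _, h⟩)
      · have := congrFun h i
        rw [hui, hui] at this
        exact absurd this (by decide)
      · have := congrFun h i
        rw [hui, hui] at this
        exact absurd this (by decide)
    have hdis2 : Disjoint (u (-1) '' T (-1)) (u 0 '' T 0) := by
      rw [Set.disjoint_left]
      rintro _ ⟨τ, _, rfl⟩ ⟨τ', _, h⟩
      have := congrFun h i
      rw [hui, hui] at this
      exact absurd this (by decide)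
    rw [hset, finsum_mem_union hdis1 (Set.toFinite _) (Set.toFinite _),
      finsum_mem_union hdis2 (Set.toFinite _) (Set.toFinite _), finsum_mem_image (hinj 1),
      finsum_mem_image (hinj (-1)), finsum_mem_image (hinj 0)]
    have hZ1 : ∀ s, s ≠ 0 → ∀ τ ∈ T s, Zs f (u s τ) = Zs f τ := by
      intro s hs τ hτ
      ext v
      rw [mem_Zs, mem_Zs]
      constructor
      · intro h j hj
        by_cases hji : j = i
        · subst hji
          rw [hT1 s τ hτ] at hj
          exact absurd hj (by decide)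
        · exact h j (by simpa [u, Function.update_of_ne hji] using hj)
      · intro h j hj
        by_cases hji : j = i
        · subst hji
          rw [hui] at hj
          exact absurd hj hs
        · exact h j (by simpa [u, Function.update_of_ne hji] using hj)
    have hZ0 : ∀ τ ∈ T 0, X ⊓ Zs f (u 0 τ) = (X ⊓ LinearMap.ker (f i)) ⊓ Zs f τ := by
      intro τ hτ
      ext v
      simp only [Submodule.mem_inf, mem_Zs, LinearMap.mem_ker]
      constructor
      · rintro ⟨h1, h2⟩
        refine ⟨⟨h1, h2 i (hui 0 τ)⟩, fun j hj => ?_⟩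
        by_cases hji : j = i
        · subst hji
          rw [hT1 0 τ hτ] at hj
          exact absurd hj (by decide)
        · exact h2 j (by simpa [u, Function.update_of_ne hji] using hj)
      · rintro ⟨⟨h1, h2⟩, h3⟩
        refine ⟨h1, fun j hj => ?_⟩
        by_cases hji : j = i
        · subst hji
          exact h2
        · exact h3 j (by simpa [u, Function.update_of_ne hji] using hj)
    have e1 : ∑ᶠ τ ∈ T 1, (-1 : ℤ) ^ (Module.finrank ℝ (X ⊓ Zs f (u 1 τ) : Submodule ℝ E))
        = if (Qs Q (f i) 1).Nonempty then (-1) ^ (Module.finrank ℝ X) else 0 := by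
      rw [finsum_mem_congr rfl fun τ hτ => by rw [hZ1 1 (by decide) τ hτ]]
      split_ifs with h
      · exact ih X _ (hQ.one' (f i)) h
      · rw [Set.not_nonempty_iff_eq_empty] at h
        simp [T, h]
    have e2 : ∑ᶠ τ ∈ T (-1), (-1 : ℤ) ^ (Module.finrank ℝ (X ⊓ Zs f (u (-1) τ) : Submodule ℝ E))
        = if (Qs Q (f i) (-1)).Nonempty then (-1) ^ (Module.finrank ℝ X) else 0 := by
      rw [finsum_mem_congr rfl fun τ hτ => by rw [hZ1 (-1) (by decide) τ hτ]]
      split_ifs with h
      · exact ih X _ (hQ.neg' (f i)) h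
      · rw [Set.not_nonempty_iff_eq_empty] at h
        simp [T, h]
    have e3 : ∑ᶠ τ ∈ T 0, (-1 : ℤ) ^ (Module.finrank ℝ (X ⊓ Zs f (u 0 τ) : Submodule ℝ E))
        = if (Qs Q (f i) 0).Nonempty then
            (-1) ^ (Module.finrank ℝ (X ⊓ LinearMap.ker (f i) : Submodule ℝ E)) else 0 := by
      rw [finsum_mem_congr rfl fun τ hτ => by rw [hZ0 τ hτ]]
      split_ifs with h
      · exact ih _ _ (hQ.zero' (f i)) h
      · rw [Set.not_nonempty_iff_eq_empty] at h
        simp [T, h]
    rw [e1, e2, e3]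
    by_cases hX : X ≤ LinearMap.ker (f i)
    · -- the form vanishes on `X`
      have h0 : ∀ v ∈ Q, f i v = 0 := fun v hv => hX (hQ.sub v hv)
      rw [if_neg, if_neg, if_pos, inf_eq_left.2 hX]
      · ring
      · obtain ⟨v, hv⟩ := hne
        exact ⟨v, hv, by rw [h0 v hv, sign_zero]⟩
      · rintro ⟨v, hv, hs⟩
        rw [h0 v hv, sign_zero] at hs
        exact absurd hs (by decide)
      · rintro ⟨v, hv, hs⟩
        rw [h0 v hv, sign_zero] at hs
        exact absurd hs (by decide)
    · have hfr := finrank_inf_ker X (f i) hX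
      by_cases hQ0 : (Qs Q (f i) 0).Nonempty
      · obtain ⟨v, hv, hs⟩ := hQ0
        rw [sign_eq_zero_iff] at hs
        obtain ⟨w, hw, hfw⟩ : ∃ w ∈ X, 0 < f i w := by
          rw [SetLike.le_def] at hX
          push Not at hX
          obtain ⟨w, hw, hfw⟩ := hX
          rw [LinearMap.mem_ker] at hfw
          rcases lt_or_gt_of_ne hfw with h | h
          · exact ⟨-w, X.neg_mem hw, by rw [map_neg]; linarith⟩
          · exact ⟨w, hw, h⟩
        have hp : (Qs Q (f i) 1).Nonempty := by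
          obtain ⟨ε, hε, h1⟩ := hQ.opn v hv w hw
          refine ⟨_, h1, ?_⟩
          rw [sign_eq_one_iff, map_add, map_smul, hs, smul_eq_mul, zero_add]
          positivity
        have hm : (Qs Q (f i) (-1)).Nonempty := by
          obtain ⟨ε, hε, h1⟩ := hQ.opn v hv (-w) (X.neg_mem hw)
          refine ⟨_, h1, ?_⟩
          rw [sign_eq_neg_one_iff, map_add, map_smul, hs, smul_eq_mul, zero_add, map_neg]
          have := mul_pos hε hfw
          linarith
        rw [if_pos hp, if_pos hm, if_pos ⟨v, hv, by rw [hs, sign_zero]⟩, ← hfr, pow_succ]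
        ring
      · rw [if_neg hQ0]
        have hnz : ∀ v ∈ Q, f i v ≠ 0 := fun v hv h => hQ0 ⟨v, hv, by rw [h, sign_zero]⟩
        have hone : ¬ ((Qs Q (f i) 1).Nonempty ∧ (Qs Q (f i) (-1)).Nonempty) := by
          rintro ⟨⟨v, hv, hs⟩, ⟨w, hw, ht⟩⟩
          rw [sign_eq_one_iff] at hs
          rw [sign_eq_neg_one_iff] at ht
          have hd : 0 < f i v - f i w := by linarith
          have h1 := hQ.conv hv hw (a := -f i w / (f i v - f i w)) (b := f i v / (f i v - f i w))
            (div_nonneg (by linarith) hd.le) (div_nonneg hs.le hd.le) (by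
              rw [← add_div]
              rw [div_eq_one_iff_eq hd.ne']
              ring)
          apply hnz _ h1
          rw [map_add, map_smul, map_smul, smul_eq_mul, smul_eq_mul]
          field_simp
          ring
        obtain ⟨v, hv⟩ := hne
        rcases hs : SignType.sign (f i v) with _ | _ | _
        · exact absurd (sign_eq_zero_iff.1 hs) (hnz v hv)
        · have h1 : (Qs Q (f i) (-1)).Nonempty := ⟨v, hv, hs⟩
          rw [if_pos h1, if_neg fun h => hone ⟨h, h1⟩]
          ring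
        · have h1 : (Qs Q (f i) 1).Nonempty := ⟨v, hv, hs⟩
          rw [if_pos h1, if_neg fun h => hone ⟨h1, h⟩]
          ring

end Pool.Agent.V8H61.MC
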